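import Mathlib

/-! Dyadic summation of counting functions. -/

set_option autoImplicit false

namespace Pool.Agent.N255.TGX

/-- A counting function which satisfies `N X ≤ N (X / 2) + C X ^ s` is `O(X ^ s)`. -/
theorem dyadic {N : ℝ → ℝ} {s C B X₀ : ℝ} (hs : 0 < s) (hC : 0 ≤ C) (hB : 0 ≤ B) (hX₀ : 2 ≤ X₀)
    (h0 : ∀ X : ℝ, 1 ≤ X → X < X₀ → N X ≤ B)
    (h : ∀ X : ℝ, X₀ ≤ X → N X ≤ N (X / 2) + C * X ^ s) :
    ∃ K : ℝ, ∀ X : ℝ, 1 ≤ X → N X ≤ K * X ^ s := by
  obtain ⟨q, hq⟩ : ∃ q : ℝ, q = (1 / 2 : ℝ) ^ s := ⟨_, rfl⟩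
  have hq0 : 0 < q := by rw [hq]; positivity
  have hq1 : q < 1 := by
    rw [hq]
    exact Real.rpow_lt_one (by norm_num) (by norm_num) hs
  obtain ⟨K, hK⟩ : ∃ K : ℝ, K = B + C / (1 - q) := ⟨_, rfl⟩
  have h1q : 0 < 1 - q := by linarith
  have hCK : C ≤ K * (1 - q) := by
    have e : K * (1 - q) = B * (1 - q) + C := by
      rw [hK]
      field_simp
    rw [e]
    have : 0 ≤ B * (1 - q) := mul_nonneg hB h1q.le
    linarith
  have hBK : B ≤ K := by
    rw [hK]
    have : 0 ≤ C / (1 - q) := div_nonneg hC h1q.le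
    linarith
  have hK0 : 0 ≤ K := hB.trans hBK
  have base : ∀ X : ℝ, 1 ≤ X → X < X₀ → N X ≤ K * X ^ s := by
    intro X hX hX2
    have h1 : 1 ≤ X ^ s := Real.one_le_rpow hX hs.le
    have h2 := h0 X hX hX2
    nlinarith
  have key : ∀ k : ℕ, ∀ X : ℝ, 1 ≤ X → X < X₀ * 2 ^ k → N X ≤ K * X ^ s := by
    intro k
    induction k with
    | zero =>
      intro X hX hX2
      rw [pow_zero, mul_one] at hX2
      exact base X hX hX2
    | succ k ih =>
      intro X hX hX2
      rcases lt_or_ge X X₀ with h3 | h3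
      · exact base X hX h3
      · have h4 : N (X / 2) ≤ K * (X / 2) ^ s := by
          refine ih (X / 2) (by linarith) ?_
          rw [pow_succ] at hX2
          linarith
        have h5 : (X / 2) ^ s = q * X ^ s := by
          rw [div_eq_mul_one_div, Real.mul_rpow (by linarith) (by norm_num), hq]
          ring
        rw [h5] at h4
        have h6 : 0 ≤ X ^ s := Real.rpow_nonneg (by linarith) _
        have h7 := h X h3
        have h8 := mul_le_mul_of_nonneg_right hCK h6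
        nlinarith
  refine ⟨K, fun X hX => ?_⟩
  obtain ⟨k, hk⟩ := pow_unbounded_of_one_lt X (show (1 : ℝ) < 2 by norm_num)
  refine key k X hX (hk.trans_le ?_)
  have : (0 : ℝ) < 2 ^ k := by positivity
  nlinarith

end Pool.Agent.N255.TGX
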